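import Pool.Agent.K1H92.ZO.Defs

set_option autoImplicit false

/-! Project ZO, piece CLOSED: the set of pairs with gap at least `c` is closed. -/

open MeasureTheory Set DomMulAct
open scoped ENNReal

namespace Pool.Agent.K1H10.ZO

open Pool.Agent.K1H92.ZO

section

variable {G : Type*} [Group G] [TopologicalSpace G] [IsTopologicalGroup G] [MeasurableSpace G]
  [BorelSpace G] [R1Space G] (μ : Measure G) [IsLocallyFiniteMeasure μ]
  [μ.InnerRegularCompactLTTop] [μ.IsMulLeftInvariant]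

theorem norm_toLp_sq {α : Type*} [MeasurableSpace α] {ν : Measure α} {h : α → ℂ}
    (hh : MemLp h 2 ν) : ‖hh.toLp h‖ ^ 2 = ∫ g, ‖h g‖ ^ 2 ∂ν := by
  rw [Lp.norm_toLp, hh.eLpNorm_eq_integral_rpow_norm (by norm_num) (by norm_num)]
  have e : ∫ g, ‖h g‖ ^ (2 : ℝ≥0∞).toReal ∂ν = ∫ g, ‖h g‖ ^ 2 ∂ν := by
    congr 1
    funext g
    simp
  rw [e]
  have h0 : 0 ≤ ∫ g, ‖h g‖ ^ 2 ∂ν := integral_nonneg fun g => by positivity
  rw [ENNReal.toReal_ofReal (Real.rpow_nonneg h0 _)]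
  rw [← Real.rpow_natCast, ← Real.rpow_mul h0]
  norm_num

theorem cont_d (f : G → ℂ) (hf : MemLp f 2 μ) :
    Continuous fun a : G => ∫ g, ‖f (a * g) - f g‖ ^ 2 ∂μ := by
  have : Fact ((2 : ℝ≥0∞) ≠ ∞) := ⟨by norm_num⟩
  have e : (fun a : G => ∫ g, ‖f (a * g) - f g‖ ^ 2 ∂μ) =
      fun a : G => ‖(DomMulAct.mk a) • (hf.toLp f : Lp ℂ 2 μ) - hf.toLp f‖ ^ 2 := by
    funext a
    rw [mk_smul_toLp, ← MemLp.toLp_sub, norm_toLp_sq]
    rfl
  rw [e]
  have h1 : Continuous fun a : G => (DomMulAct.mk a) • (hf.toLp f : Lp ℂ 2 μ) :=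
    (DomMulAct.continuous_mk).smul continuous_const
  exact ((h1.sub continuous_const).norm).pow 2

end

instance : SecondCountableTopology SO3 := by
  have : SecondCountableTopology (Matrix (Fin 3) (Fin 3) ℝ) :=
    inferInstanceAs (SecondCountableTopology (Fin 3 → Fin 3 → ℝ))
  exact TopologicalSpace.Subtype.secondCountableTopology _

theorem closed [MeasurableSpace SO3] [BorelSpace SO3] : StmClosed := by
  intro μ _ _ c
  have e : {z : SO3 × SO3 | Unif μ c z.1 z.2} =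
      ⋂ (f : SO3 → ℂ) (_ : MemLp f 2 μ) (_ : ∫ g, f g ∂μ = 0),
        {z : SO3 × SO3 | c * ∫ g, ‖f g‖ ^ 2 ∂μ ≤
          (∫ g, ‖f (z.1 * g) - f g‖ ^ 2 ∂μ) + ∫ g, ‖f (z.2 * g) - f g‖ ^ 2 ∂μ} := by
    ext z
    simp only [mem_setOf_eq, mem_iInter, Unif]
  rw [e]
  refine isClosed_iInter fun f => isClosed_iInter fun hf => isClosed_iInter fun _ => ?_
  have h := cont_d μ f hf
  exact isClosed_le continuous_const ((h.comp continuous_fst).add (h.comp continuous_snd))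

end Pool.Agent.K1H10.ZO
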